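import Pool.Agent.RS.Small

/-!
# MP_963701_co, Q1: all permutahedra `Π_n`, `n ≥ 5`, have rhombic strips
-/

set_option autoImplicit false

namespace Pool.Agent.Results.MP_963701_co.RhombicStrips

open Pool.Agent.RS

/-- For every `n ≥ 5` the cover graph of the face lattice of the permutahedron `Π_n` admits a
rhombic strip. -/
theorem result (n : ℕ) (hn : 5 ≤ n) :
    Nonempty (RhombicStrip (PFace.rk (n := n)) PFace.Cov) :=
  rhombic_all small_ok hn

end Pool.Agent.Results.MP_963701_co.RhombicStrips
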